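import Mathlib
import Pool.Agent.Lib.Common.Forcing.Defs

/-!
Formal provability from the axioms of ZFC, and the sentences `non(E) ≤ b_2^eq` and
`d_2^eq ≤ cov(E)` of the language of set theory.
-/

set_option autoImplicit false

namespace Pool.Agent.Lib.MP_60e7f9_lc.Prov

open Pool.Agent.Lib.Common.Forcing

/-- The sequence `a, f 0, f 1, ...`. -/
def cons {α : Type*} (a : α) (f : ℕ → α) : ℕ → α
  | 0 => a
  | n + 1 => f n

/-- The free variable `i` is replaced by the variable `f i`. -/
def ren : Fm → (ℕ → ℕ) → Fm
  | .mem i j, f => .mem (f i) (f j)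
  | .eq i j, f => .eq (f i) (f j)
  | .bot, _ => .bot
  | .imp φ ψ, f => .imp (ren φ f) (ren ψ f)
  | .all φ, f => .all (ren φ (cons 0 fun i => f i + 1))

/-- Formulas with named variables: the argument is the number `d` of enclosing quantifiers, the
name of a bound variable is the number of quantifiers that enclose its quantifier, so the name
`x` has the de Bruijn index `d - 1 - x`. A sentence `p` stands for the formula `p 0`. -/
abbrev F : Type := ℕ → Fm

/-- `x ∈ y` -/
def mem (x y : ℕ) : F := fun d => .mem (d - 1 - x) (d - 1 - y)

/-- `x = y` -/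
def eq (x y : ℕ) : F := fun d => .eq (d - 1 - x) (d - 1 - y)

/-- `p → q` -/
def imp (p q : F) : F := fun d => .imp (p d) (q d)

/-- `¬ p` -/
def neg (p : F) : F := fun d => .imp (p d) .bot

/-- `p ∧ q` -/
def and (p q : F) : F := neg (imp p (neg q))

/-- `p ∨ q` -/
def or (p q : F) : F := imp (neg p) q

/-- `p ↔ q` -/
def iff (p q : F) : F := and (imp p q) (imp q p)

/-- `∀ x, p x` -/
def all (p : ℕ → F) : F := fun d => .all (p d (d + 1))

/-- `∃ x, p x` -/
def ex (p : ℕ → F) : F := neg (all fun x => neg (p x))

/-- `∀ x ∈ a, p x` -/
def allIn (a : ℕ) (p : ℕ → F) : F := all fun x => imp (mem x a) (p x)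

/-- `∃ x ∈ a, p x` -/
def exIn (a : ℕ) (p : ℕ → F) : F := ex fun x => and (mem x a) (p x)

/-- The formula `φ` with its variable `0` named `x`; its other variables stay free. -/
def at1 (φ : Fm) (x : ℕ) : F := fun d => ren φ (cons (d - 1 - x) fun i => i + d)

/-- The formula `φ` with its variables `0`, `1` named `y`, `x`; its other variables stay free. -/
def at2 (φ : Fm) (y x : ℕ) : F :=
  fun d => ren φ (cons (d - 1 - y) (cons (d - 1 - x) fun i => i + d))

/-- `a ⊆ b` -/
def sub (a b : ℕ) : F := allIn a fun z => mem z b

/-- `a = ∅` -/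
def emp (a : ℕ) : F := all fun z => neg (mem z a)

/-- `b = a ∪ {a}` -/
def suc (a b : ℕ) : F := all fun z => iff (mem z b) (or (mem z a) (eq z a))

/-- `w` contains `∅` and is closed under successor. -/
def ind (w : ℕ) : F := and (exIn w emp) (allIn w fun a => exIn w fun b => suc a b)

/-- The axioms of ZFC: extensionality, foundation, pairing, union, power set, infinity,
separation, collection and choice. -/
inductive ZFC : Fm → Prop
  | ext : ZFC ((all fun a => all fun b => imp (sub a b) (imp (sub b a) (eq a b))) 0)
  | found : ZFC ((all fun a => imp (neg (emp a))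
      (exIn a fun x => allIn x fun y => neg (mem y a))) 0)
  | pair : ZFC ((all fun a => all fun b => ex fun c => and (mem a c) (mem b c)) 0)
  | union : ZFC ((all fun a => ex fun b => allIn a fun x => sub x b) 0)
  | power : ZFC ((all fun a => ex fun b => all fun x => imp (sub x a) (mem x b)) 0)
  | inf : ZFC (ex ind 0)
  | sep (φ : Fm) : ZFC ((all fun a => ex fun b => all fun x =>
      iff (mem x b) (and (mem x a) (at1 φ x))) 0)
  | coll (φ : Fm) : ZFC ((all fun a => imp (allIn a fun x => ex fun y => at2 φ y x)
      (ex fun b => allIn a fun x => exIn b fun y => at2 φ y x)) 0)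
  | choice : ZFC ((all fun a => imp (allIn a fun x => neg (emp x))
      (imp (allIn a fun x => allIn a fun x' => allIn x fun y => imp (mem y x') (eq x x'))
        (ex fun c => allIn a fun x => exIn x fun y => and (mem y c)
          (allIn x fun y' => imp (mem y' c) (eq y' y))))) 0)

/-- Natural deduction for classical first-order logic with equality: `Prf Γ φ` says that `φ` has
a formal proof from the axioms of ZFC (whose free variables are read universally) and the open
hypotheses `Γ`. The only terms are variables; `ren φ (cons i id)` is `φ` with the variable `i`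
put for the bound variable, and in `allI` the hypotheses are shifted, so that the variable `0` is
fresh for them. -/
inductive Prf : List Fm → Fm → Prop
  | ax {Γ : List Fm} {φ : Fm} (f : ℕ → ℕ) : ZFC φ → Prf Γ (ren φ f)
  | hyp {Γ : List Fm} {φ : Fm} : φ ∈ Γ → Prf Γ φ
  | impI {Γ : List Fm} {φ ψ : Fm} : Prf (φ :: Γ) ψ → Prf Γ (.imp φ ψ)
  | impE {Γ : List Fm} {φ ψ : Fm} : Prf Γ (.imp φ ψ) → Prf Γ φ → Prf Γ ψ
  | raa {Γ : List Fm} {φ : Fm} : Prf (.imp φ .bot :: Γ) .bot → Prf Γ φ
  | allI {Γ : List Fm} {φ : Fm} : Prf (Γ.map fun ψ => ren ψ (· + 1)) φ → Prf Γ (.all φ)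
  | allE {Γ : List Fm} {φ : Fm} (i : ℕ) : Prf Γ (.all φ) → Prf Γ (ren φ (cons i id))
  | eqI {Γ : List Fm} (i : ℕ) : Prf Γ (.eq i i)
  | eqE {Γ : List Fm} {φ : Fm} {i j : ℕ} :
      Prf Γ (.eq i j) → Prf Γ (ren φ (cons i id)) → Prf Γ (ren φ (cons j id))

/-- `p = {a, b}` -/
def upr (p a b : ℕ) : F := all fun z => iff (mem z p) (or (eq z a) (eq z b))

/-- `p = (a, b) = {{a}, {a, b}}` -/
def opr (p a b : ℕ) : F := all fun z => iff (mem z p) (or (upr z a a) (upr z a b))

/-- `(a, b) ∈ g` -/
def app (g a b : ℕ) : F := exIn g fun p => opr p a b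

/-- `n ∈ ω` -/
def nat (n : ℕ) : F := all fun w => imp (ind w) (mem n w)

/-- `x ⊆ ω`; the points of `2^ω` are the subsets of `ω`. -/
def real (x : ℕ) : F := allIn x nat

/-- `s = x ∩ n`, the restriction of `x` to `n`. -/
def res (s x n : ℕ) : F := all fun k => iff (mem k s) (and (mem k x) (mem k n))

/-- Some one-to-one function `g` maps the class `A` into the class `B`. -/
def leq (A B : ℕ → F) : F := ex fun g =>
  and (all fun a => imp (A a) (ex fun b => and (B b) (app g a b)))
    (all fun a => all fun b => all fun a' => all fun b' =>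
      imp (app g a b) (imp (app g a' b') (iff (eq a a') (eq b b'))))

/-- `K` is a closed subset of `2^ω`. -/
def closed (K : ℕ) : F := and (allIn K real) (all fun x => imp (real x)
  (imp (all fun n => imp (nat n) (exIn K fun y => ex fun s => and (res s x n) (res s y n)))
    (mem x K)))

/-- The closed set `K` is null: for each `m` there is `N ≥ m` with `|K ↾ N| * 2^m ≤ 2^N`, where
`K ↾ N` is the set of restrictions to `N` of the points of `K`. -/
def null (K : ℕ) : F := all fun m => imp (nat m) (ex fun N => and (nat N) (and (sub m N)
  (leq (fun p => exIn K fun x => ex fun s => ex fun u =>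
      and (res s x N) (and (sub u m) (opr p s u)))
    fun z => sub z N)))

/-- `X ∈ E`: `X` is covered by the values `R(n)`, `n ∈ ω`, of a function `R` whose values are
closed null sets. -/
def inE (X : ℕ) : F := ex fun R =>
  and (all fun n => all fun K => all fun K' => imp (app R n K) (imp (app R n K') (eq K K')))
    (and (all fun n => all fun K => imp (app R n K) (and (closed K) (null K)))
      (allIn X fun x => ex fun n => ex fun K => and (nat n) (and (app R n K) (mem x K))))

/-- `J` is the set of left endpoints of a partition of `ω` into finite nonempty intervals. -/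
def part (J : ℕ) : F :=
  and (real J) (and (exIn J emp) (all fun n => imp (nat n) (exIn J fun j => mem n j)))

/-- Almost every interval `[j, j')` of the partition `J` has a point `k` with `f k = h k`. -/
def rel (f J h : ℕ) : F := ex fun N => and (nat N) (allIn J fun j => allIn J fun j' =>
  imp (sub N j) (imp (mem j j') (imp (allIn J fun z => neg (and (mem j z) (mem z j')))
    (exIn j' fun k => and (neg (mem k j)) (iff (mem k f) (mem k h))))))

/-- `non(E) ≤ b_b^eq` for the constant function `b = 2`: every unbounded family `Y` has at least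
the size of some set `X` outside `E`. -/
def nonLeB : F := all fun Y => imp (allIn Y real)
  (imp (neg (ex fun J => ex fun h => and (part J) (and (real h) (allIn Y fun f => rel f J h))))
    (ex fun X => and (allIn X real) (and (neg (inE X)) (leq (mem · X) (mem · Y)))))

/-- `d_b^eq ≤ cov(E)` for the constant function `b = 2`: every cover `C` of `2^ω` by members of
`E` has at least the size of some dominating family `D` of pairs `(J, h)`. -/
def dLeCov : F := all fun C => imp (allIn C fun X => and (allIn X real) (inE X))
  (imp (all fun x => imp (real x) (exIn C fun X => mem x X))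
    (ex fun D => and (allIn D fun p => ex fun J => ex fun h =>
        and (opr p J h) (and (part J) (real h)))
      (and (all fun f => imp (real f) (exIn D fun p => ex fun J => ex fun h =>
          and (opr p J h) (rel f J h)))
        (leq (mem · D) (mem · C)))))

end Pool.Agent.Lib.MP_60e7f9_lc.Prov
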