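import Mathlib
import Pool.Agent.Lib.MP_60e7f9_lc.Prov.Defs

/-!
Truth in an arbitrary structure, soundness, and the completeness theorem.
-/

set_option autoImplicit false

namespace Pool.Agent.Lib.MP_60e7f9_lc.Prov

open Pool.Agent.Lib.Common.Forcing

@[simp] theorem cons_zero {α : Type*} (a : α) (f : ℕ → α) : cons a f 0 = a := rfl
@[simp] theorem cons_succ {α : Type*} (a : α) (f : ℕ → α) (i : ℕ) : cons a f (i + 1) = f i := rfl

/-- Truth in the structure `(M, E)`. -/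
def Ev {M : Type*} (E : M → M → Prop) : Fm → (ℕ → M) → Prop
  | .mem i j, v => E (v i) (v j)
  | .eq i j, v => v i = v j
  | .bot, _ => False
  | .imp φ ψ, v => Ev E φ v → Ev E ψ v
  | .all φ, v => ∀ x, Ev E φ (cons x v)

theorem ev_ren {M : Type*} (E : M → M → Prop) (φ : Fm) : ∀ (f : ℕ → ℕ) (v : ℕ → M),
    Ev E (ren φ f) v ↔ Ev E φ fun i => v (f i) := by
  induction φ with
  | mem i j => intro f v; rfl
  | eq i j => intro f v; rfl
  | bot => intro f v; rfl
  | imp φ ψ a b => intro f v; simp only [ren, Ev, a, b]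
  | all φ a =>
    intro f v
    simp only [ren, Ev, a]
    refine forall_congr' fun x => iff_of_eq (congrArg _ (funext fun i => ?_))
    cases i <;> rfl

theorem Prf.sound {M : Type*} {E : M → M → Prop} (hE : ∀ φ, ZFC φ → ∀ v, Ev E φ v)
    {Γ : List Fm} {φ : Fm} (h : Prf Γ φ) : ∀ v, (∀ ψ ∈ Γ, Ev E ψ v) → Ev E φ v := by
  have e : ∀ (v : ℕ → M) (i : ℕ), (fun k => v (cons i id k)) = cons (v i) v := fun v i =>
    funext fun k => by cases k <;> rfl
  induction h with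
  | ax f h => exact fun v _ => (ev_ren _ _ _ _).2 (hE _ h _)
  | hyp h => exact fun v H => H _ h
  | impI _ ih => exact fun v H a => ih v (List.forall_mem_cons.2 ⟨a, H⟩)
  | impE _ _ a b => exact fun v H => a v H (b v H)
  | raa _ ih => exact fun v H => by_contra fun a => ih v (List.forall_mem_cons.2 ⟨a, H⟩)
  | allI _ ih =>
    refine fun v H x => ih _ fun ψ hψ => ?_
    obtain ⟨χ, a, rfl⟩ := List.mem_map.1 hψ
    exact (ev_ren _ _ _ _).2 (H χ a)
  | allE i _ ih => intro v H; rw [ev_ren, e]; exact ih v H _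
  | eqI i => exact fun v _ => rfl
  | eqE _ _ a b =>
    intro v H
    have := b v H
    rw [ev_ren, e] at this ⊢
    exact (show _ = _ from a v H) ▸ this

theorem ren_ren (φ : Fm) : ∀ f g : ℕ → ℕ, ren (ren φ f) g = ren φ fun i => g (f i) := by
  induction φ with
  | mem i j => intro f g; rfl
  | eq i j => intro f g; rfl
  | bot => intro f g; rfl
  | imp φ ψ a b => intro f g; simp only [ren, a, b]
  | all φ a =>
    intro f g
    simp only [ren, a]
    congr 2
    funext i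
    cases i <;> rfl

/-- A bound for the free variables. -/
def bd : Fm → ℕ
  | .mem i j => max i j + 1
  | .eq i j => max i j + 1
  | .bot => 0
  | .imp φ ψ => max (bd φ) (bd ψ)
  | .all φ => bd φ

theorem ren_congr (φ : Fm) : ∀ {f g : ℕ → ℕ}, (∀ i < bd φ, f i = g i) → ren φ f = ren φ g := by
  induction φ with
  | mem i j => intro f g h; simp only [ren]; rw [h i (by simp [bd]), h j (by simp [bd])]
  | eq i j => intro f g h; simp only [ren]; rw [h i (by simp [bd]), h j (by simp [bd])]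
  | bot => intro f g _; rfl
  | imp φ ψ a b =>
    intro f g h
    simp only [ren]
    rw [a fun i hi => h i (lt_max_of_lt_left hi), b fun i hi => h i (lt_max_of_lt_right hi)]
  | all φ a =>
    intro f g h
    simp only [ren]
    congr 1
    refine a fun i hi => ?_
    cases i with
    | zero => rfl
    | succ i => simp only [cons_succ]; rw [h i (by simp only [bd]; omega)]

theorem ren_id (φ : Fm) : ren φ id = φ := by
  induction φ with
  | mem i j => rfl
  | eq i j => rfl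
  | bot => rfl
  | imp φ ψ a b => simp only [ren, a, b]
  | all φ a =>
    simp only [ren]
    congr 1
    conv_rhs => rw [← a]
    congr 1
    funext i
    cases i <;> rfl

theorem Prf.weaken {Γ : List Fm} {φ : Fm} (h : Prf Γ φ) :
    ∀ {Γ' : List Fm}, Γ ⊆ Γ' → Prf Γ' φ := by
  induction h with
  | ax f h => intro _ _; exact .ax f h
  | hyp h => intro _ h'; exact .hyp (h' h)
  | impI _ ih => intro _ h'; exact .impI (ih (List.cons_subset_cons _ h'))
  | impE _ _ ih1 ih2 => intro _ h'; exact .impE (ih1 h') (ih2 h')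
  | raa _ ih => intro _ h'; exact .raa (ih (List.cons_subset_cons _ h'))
  | allI _ ih => intro _ h'; exact .allI (ih (List.map_subset _ h'))
  | allE t _ ih => intro _ h'; exact .allE t (ih h')
  | eqI t => intro _ _; exact .eqI t
  | eqE _ _ ih1 ih2 => intro _ h'; exact .eqE (ih1 h') (ih2 h')

theorem ren_inst (φ : Fm) (t : ℕ) (f : ℕ → ℕ) : ren (ren φ (cons t id)) f =
    ren (ren φ (cons 0 fun i => f i + 1)) (cons (f t) id) := by
  simp only [ren_ren]
  congr 1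
  funext i
  cases i <;> rfl

theorem Prf.ren {Γ : List Fm} {φ : Fm} (h : Prf Γ φ) : ∀ f : ℕ → ℕ,
    Prf (Γ.map fun ψ => ren ψ f) (ren φ f) := by
  induction h with
  | ax f h => intro g; rw [ren_ren]; exact .ax _ h
  | hyp h => intro f; exact .hyp (List.mem_map_of_mem h)
  | impI _ ih => intro f; exact .impI (ih f)
  | impE _ _ ih1 ih2 => intro f; exact .impE (ih1 f) (ih2 f)
  | raa _ ih => intro f; exact .raa (ih f)
  | allI _ ih =>
    intro f
    refine .allI ?_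
    have := ih (cons 0 fun i => f i + 1)
    simp only [List.map_map, Function.comp_def, ren_ren, cons_succ] at this ⊢
    exact this
  | allE t _ ih => intro f; rw [ren_inst]; exact .allE _ (ih f)
  | eqI t => intro f; exact .eqI _
  | eqE _ _ ih1 ih2 =>
    intro f
    have h2 := ih2 f
    rw [ren_inst] at h2 ⊢
    exact .eqE (ih1 f) h2

theorem Prf.gen {Γ : List Fm} {φ : Fm} {n : ℕ} (hΓ : ∀ ψ ∈ Γ, bd ψ ≤ n) (hφ : bd φ ≤ n)
    (h : Prf Γ (Prov.ren φ (cons n id))) : Prf Γ φ.all := by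
  have := h.ren fun i => if i = n then 0 else i + 1
  rw [ren_ren] at this
  have e1 : Prov.ren φ (fun i => if cons n id i = n then 0 else cons n id i + 1) = φ := by
    conv_rhs => rw [← ren_id φ]
    refine ren_congr φ fun i hi => ?_
    cases i with
    | zero => simp
    | succ i => simp only [cons_succ, id]; rw [if_neg (by omega)]
  have e2 : (Γ.map fun ψ => Prov.ren ψ fun i => if i = n then 0 else i + 1)
      = Γ.map fun ψ => Prov.ren ψ (· + 1) := by
    refine List.map_congr_left fun ψ hψ => ren_congr ψ fun i hi => ?_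
    have := hΓ ψ hψ
    rw [if_neg (by omega)]
  rw [e1, e2] at this
  exact .allI this

theorem exists_list_bound (Γ : List Fm) (m : ℕ) : ∃ n, m ≤ n ∧ ∀ ψ ∈ Γ, bd ψ ≤ n := by
  induction Γ with
  | nil => exact ⟨m, le_rfl, by simp⟩
  | cons φ Γ ih =>
    obtain ⟨n, h1, h2⟩ := ih
    refine ⟨max n (bd φ), h1.trans (le_max_left _ _), fun ψ hψ => ?_⟩
    rcases List.mem_cons.1 hψ with rfl | h
    · exact le_max_right _ _
    · exact (h2 ψ h).trans (le_max_left _ _)

theorem henkin_step (Γ : List Fm) (hΓ : ¬ Prf Γ .bot) (φ : Fm) :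
    ∃ Γ', Γ ⊆ Γ' ∧ ¬ Prf Γ' .bot ∧ (φ ∈ Γ' ∨ (φ.imp .bot ∈ Γ' ∧
      ∀ ψ, φ = .all ψ → ∃ t, (ren ψ (cons t id)).imp .bot ∈ Γ')) := by
  by_cases h : Prf (φ :: Γ) .bot
  · have h1 : ¬ Prf (φ.imp .bot :: Γ) .bot := fun h1 => hΓ (.impE (.impI h) (.raa h1))
    by_cases h2 : ∃ ψ, φ = .all ψ
    · obtain ⟨ψ, rfl⟩ := h2
      obtain ⟨n, h3, h4⟩ := exists_list_bound (ψ.all.imp .bot :: Γ) (bd ψ)
      refine ⟨(ren ψ (cons n id)).imp .bot :: ψ.all.imp .bot :: Γ, fun x hx => by simp [hx],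
        fun h5 => ?_, Or.inr ⟨by simp, ?_⟩⟩
      · exact h1 (.impE (.hyp List.mem_cons_self) (Prf.gen h4 h3 (.raa h5)))
      · intro ψ' h5
        cases h5
        exact ⟨_, List.mem_cons_self⟩
    · exact ⟨φ.imp .bot :: Γ, fun x hx => by simp [hx], h1, Or.inr ⟨by simp,
        fun ψ h4 => absurd ⟨ψ, h4⟩ h2⟩⟩
  · exact ⟨φ :: Γ, fun x hx => by simp [hx], h, Or.inl (by simp)⟩

/-- An injection of formulas into the natural numbers. -/
def fcode : Fm → ℕ
  | .eq s t => Nat.pair 0 (Nat.pair s t)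
  | .mem s t => Nat.pair 2 (Nat.pair s t)
  | .bot => Nat.pair 3 0
  | .imp φ ψ => Nat.pair 4 (Nat.pair (fcode φ) (fcode ψ))
  | .all φ => Nat.pair 5 (fcode φ)

theorem fcode_inj : ∀ φ ψ : Fm, fcode φ = fcode ψ → φ = ψ := by
  intro φ
  induction φ with
  | imp s s' ih1 ih2 =>
    intro ψ h
    cases ψ <;> simp [fcode] at h
    rw [ih1 _ h.1, ih2 _ h.2]
  | all s ih =>
    intro ψ h
    cases ψ <;> simp [fcode] at h
    rw [ih _ h]
  | _ => intro ψ h; cases ψ <;> simp_all [fcode]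

theorem complete {θ : Fm} (H : ∀ (M : Type) (E : M → M → Prop),
    (∀ φ, ZFC φ → ∀ v, Ev E φ v) → ∀ v, Ev E θ v) : Prf [] θ := by
  by_contra h
  have : Countable Fm := Function.Injective.countable (f := fcode) fcode_inj
  obtain ⟨e, he⟩ := @exists_surjective_nat Fm ⟨.bot⟩ _
  choose f f1 f2 f3 using henkin_step
  let s : ℕ → {Γ : List Fm // ¬ Prf Γ .bot} := fun n => Nat.rec
    ⟨[θ.imp .bot], fun h' => h (.raa h')⟩ (fun n p => ⟨f p.1 p.2 (e n), f2 _ _ _⟩) n
  have hs1 : ∀ n m, n ≤ m → (s n).1 ⊆ (s m).1 := by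
    intro n m h
    induction h with
    | refl => exact List.Subset.refl _
    | step _ ih => exact List.Subset.trans ih (f1 _ _ _)
  have hs2 : ∀ φ, ∃ n, φ ∈ (s n).1 ∨ (φ.imp .bot ∈ (s n).1 ∧
      ∀ ψ, φ = .all ψ → ∃ t, (ren ψ (cons t id)).imp .bot ∈ (s n).1) := fun φ => by
    obtain ⟨n, rfl⟩ := he φ
    exact ⟨n + 1, f3 (s n).1 (s n).2 _⟩
  let Δ : Fm → Prop := fun φ => ∃ n, Prf (s n).1 φ
  have two : ∀ {φ ψ}, Δ φ → Δ ψ → ∃ n, Prf (s n).1 φ ∧ Prf (s n).1 ψ := by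
    rintro φ ψ ⟨n, hn⟩ ⟨m, hm⟩
    exact ⟨max n m, hn.weaken (hs1 _ _ (le_max_left _ _)), hm.weaken (hs1 _ _ (le_max_right _ _))⟩
  have con : ∀ φ, Δ φ → ¬ Δ (φ.imp .bot) := by
    intro φ h1 h2
    obtain ⟨n, h3, h4⟩ := two h1 h2
    exact (s n).2 (.impE h4 h3)
  have himp : ∀ φ ψ : Fm, Δ (φ.imp ψ) ↔ (Δ φ → Δ ψ) := fun φ ψ => by
    refine ⟨fun h1 h2 => ?_, fun h1 => ?_⟩
    · obtain ⟨n, h3, h4⟩ := two h1 h2
      exact ⟨n, .impE h3 h4⟩
    · obtain ⟨n, h2 | ⟨h2, -⟩⟩ := hs2 φ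
      · obtain ⟨m, hm⟩ := h1 ⟨n, .hyp h2⟩
        exact ⟨m, .impI (hm.weaken (List.subset_cons_self _ _))⟩
      · exact ⟨n, .impI (.raa (.impE (.hyp (φ := φ.imp .bot) (by simp [h2])) (.hyp (by simp))))⟩
  have hall : ∀ φ : Fm, Δ φ.all ↔ ∀ t, Δ (ren φ (cons t id)) := fun φ => by
    refine ⟨fun ⟨n, hn⟩ t => ⟨n, .allE t hn⟩, fun h1 => ?_⟩
    obtain ⟨n, h2 | ⟨-, h2⟩⟩ := hs2 φ.all
    · exact ⟨n, .hyp h2⟩
    · obtain ⟨t, ht⟩ := h2 φ rfl
      exact absurd ⟨n, .hyp ht⟩ (con _ (h1 t))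
  have rw' : ∀ (φ : Fm) (a b : ℕ), Δ (.eq a b) → Δ (ren φ (cons a id)) →
      Δ (ren φ (cons b id)) := fun φ a b h1 h2 => by
    obtain ⟨n, h3, h4⟩ := two h1 h2
    exact ⟨n, .eqE h3 h4⟩
  have hr : ∀ a, Δ (.eq a a) := fun a => ⟨0, .eqI a⟩
  have hsy : ∀ {a b}, Δ (.eq a b) → Δ (.eq b a) := fun {a b} h =>
    rw' (.eq 0 (a + 1)) a b h (hr a)
  have htr : ∀ {a b c}, Δ (.eq a b) → Δ (.eq b c) → Δ (.eq a c) := fun {a b c} h h' =>
    rw' (.eq (a + 1) 0) b c h' h
  have hm : ∀ {a b a' b'}, Δ (.eq a a') → Δ (.eq b b') → Δ (.mem a b) → Δ (.mem a' b') :=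
    fun {a b a' b'} h h' h0 => rw' (.mem (a' + 1) 0) b b' h' (rw' (.mem 0 (b + 1)) a a' h h0)
  let r : Setoid ℕ := ⟨fun a b => Δ (.eq a b), ⟨hr, hsy, htr⟩⟩
  let E : Quotient r → Quotient r → Prop := Quotient.lift₂ (fun a b => Δ (.mem a b))
    fun _ _ _ _ h h' => propext ⟨hm h h', hm (hsy h) (hsy h')⟩
  have truth : ∀ (φ : Fm) (σ : ℕ → ℕ), Ev E φ (fun i => ⟦σ i⟧) ↔ Δ (ren φ σ) := by
    intro φ
    induction φ with
    | eq s t => intro σ; exact Quotient.eq (r := r)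
    | mem s t => intro σ; rfl
    | bot => intro σ; exact iff_of_false id fun ⟨n, hn⟩ => (s n).2 hn
    | imp φ ψ ih1 ih2 => intro σ; simp only [Ev, ren, himp, ih1, ih2]
    | all φ ih =>
      intro σ
      have e1 : ∀ t, ren (ren φ (cons 0 fun i => σ i + 1)) (cons t id) = ren φ (cons t σ) :=
        fun t => by
          rw [ren_ren]
          congr 1
          funext i
          cases i <;> rfl
      have e2 : ∀ t : ℕ, cons (⟦t⟧ : Quotient r) (fun i => ⟦σ i⟧) = fun i => ⟦cons t σ i⟧ :=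
        fun t => funext fun i => by cases i <;> rfl
      simp only [Ev, ren, hall, e1, ← ih, ← e2]
      exact ⟨fun h t => h _, fun h x => Quotient.inductionOn x h⟩
  have := (truth θ id).1 (H _ E (fun φ hφ v => ?_) _)
  · rw [ren_id] at this
    exact con θ this ⟨0, .hyp List.mem_cons_self⟩
  · have e3 : v = fun i => ⟦(v i).out⟧ := funext fun i => (Quotient.out_eq _).symm
    rw [e3]
    exact (truth φ _).2 ⟨0, .ax _ hφ⟩

end Pool.Agent.Lib.MP_60e7f9_lc.Prov
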