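import Mathlib
import Pool.Agent.Lib.MP_60e7f9_lc.Prov.Complete

/-!
Arbitrary models of ZFC and their definable predicates.
-/

set_option autoImplicit false
set_option linter.unusedSectionVars false

namespace Pool.Agent.Lib.MP_60e7f9_lc.Prov

open Pool.Agent.Lib.Common.Forcing

section
variable {M : Type*} {E : M → M → Prop} {v : ℕ → M} {d x y : ℕ} {p q : F} {r : ℕ → F}

theorem ev_mem : Ev E (mem x y d) v ↔ E (v (d - 1 - x)) (v (d - 1 - y)) := Iff.rfl
theorem ev_eq : Ev E (eq x y d) v ↔ v (d - 1 - x) = v (d - 1 - y) := Iff.rfl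
theorem ev_imp : Ev E (imp p q d) v ↔ (Ev E (p d) v → Ev E (q d) v) := Iff.rfl
theorem ev_neg : Ev E (neg p d) v ↔ ¬ Ev E (p d) v := Iff.rfl
theorem ev_and : Ev E (and p q d) v ↔ Ev E (p d) v ∧ Ev E (q d) v := by
  simp only [and, ev_neg, ev_imp]; tauto
theorem ev_or : Ev E (or p q d) v ↔ Ev E (p d) v ∨ Ev E (q d) v := by
  simp only [or, ev_neg, ev_imp]; tauto
theorem ev_iff : Ev E (iff p q d) v ↔ (Ev E (p d) v ↔ Ev E (q d) v) := by
  simp only [iff, ev_and, ev_imp]; tauto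
theorem ev_all : Ev E (all r d) v ↔ ∀ m, Ev E (r d (d + 1)) (cons m v) := Iff.rfl
theorem ev_ex : Ev E (ex r d) v ↔ ∃ m, Ev E (r d (d + 1)) (cons m v) := by
  simp only [ex, ev_neg, ev_all, not_forall, not_not]

end

/-- A model of ZFC, not necessarily well-founded. -/
class Mod (M : Type) where
  E : M → M → Prop
  v0 : ℕ → M
  ax : ∀ φ, ZFC φ → ∀ v, Ev E φ v

variable {M : Type} [Mod M]

instance : Membership M M := ⟨fun y x => Mod.E x y⟩
instance : HasSubset M := ⟨fun a b => ∀ z ∈ a, z ∈ b⟩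

theorem E_def (x y : M) : Mod.E x y ↔ x ∈ y := Iff.rfl
theorem sub_def {a b : M} : a ⊆ b ↔ ∀ z ∈ a, z ∈ b := Iff.rfl

/-- Tuples of elements, pushed on top of a sequence of parameters. -/
class Env (M α : Type) where
  c : α → (ℕ → M) → ℕ → M
  lift : (ℕ → ℕ) → ℕ → ℕ
  spec : ∀ a w f i, c a w (lift f i) = c a (fun j => w (f j)) i
  bs : ℕ → ℕ
  hbs : ∀ a w i, c a w (bs i) = w i

instance : Env M Unit := ⟨fun _ w => w, fun f => f, fun _ _ _ _ => rfl, id, fun _ _ _ => rfl⟩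

instance {α : Type} [Env M α] : Env M (α × M) :=
  ⟨fun z w => cons z.2 (Env.c z.1 w), fun f => cons 0 fun i => Env.lift M α f i + 1,
    fun z w f i => by
      cases i with
      | zero => rfl
      | succ i => exact Env.spec z.1 w f i, fun i => Env.bs M α i + 1,
    fun z w => Env.hbs z.1 w⟩

/-- Predicates that are definable with parameters. -/
class Df (M : Type) [Mod M] {α : Type} [Env M α] (p : α → Prop) : Prop where
  df : ∃ (φ : Fm) (w : ℕ → M), ∀ a, Ev Mod.E φ (Env.c a w) ↔ p a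

/-- Coordinate maps. -/
class Prj (M : Type) {α β : Type} [Env M α] [Env M β] (g : β → α) : Prop where
  pr : ∃ f : ℕ → ℕ, ∀ b (w : ℕ → M) i, Env.c (g b) w i = Env.c b w (f i)

/-- Definable terms. -/
class Tm {α : Type} [Env M α] (t : α → M) : Prop where
  df : Df M fun z : α × M => z.2 = t z.1

variable {α β : Type} [Env M α] [Env M β]

instance : Prj M fun z : α => z := ⟨id, fun _ _ _ => rfl⟩

instance (g : β → α × M) [h : Prj M g] : Prj M fun z => (g z).1 := by
  obtain ⟨f, hf⟩ := h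
  exact ⟨fun i => f (i + 1), fun b w i => hf b w (i + 1)⟩

theorem prjUnit : Prj M fun _ : β => () := ⟨Env.bs M β, fun b w i => (Env.hbs b w i).symm⟩

theorem Prj.up (g : β → α) [h : Prj M g] : Prj M fun z : β × M => (g z.1, z.2) := by
  obtain ⟨f, hf⟩ := h
  refine ⟨cons 0 fun i => f i + 1, fun b w i => ?_⟩
  cases i with
  | zero => rfl
  | succ i => exact hf b.1 w i

theorem Df.comp (p : α → Prop) (g : β → α) [h : Df M p] [h' : Prj M g] :
    Df M fun b => p (g b) := by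
  obtain ⟨φ, w, h⟩ := h
  obtain ⟨f, hf⟩ := h'
  refine ⟨ren φ f, w, fun b => ?_⟩
  rw [ev_ren, ← h]
  exact iff_of_eq (congrArg _ (funext fun i => (hf b w i).symm))

theorem Df.congr {p q : α → Prop} (h : Df M p) (e : ∀ a, p a ↔ q a) : Df M q :=
  (funext fun a => propext (e a) : p = q) ▸ h

instance dfFalse : Df M fun _ : α => False := ⟨.bot, Mod.v0, fun _ => Iff.rfl⟩

instance dfImp (p q : α → Prop) [h : Df M p] [h' : Df M q] : Df M fun a => p a → q a := by
  obtain ⟨φ, w, h⟩ := h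
  obtain ⟨ψ, w', h'⟩ := h'
  refine ⟨.imp (ren φ (Env.lift M α (2 * ·))) (ren ψ (Env.lift M α (2 * · + 1))),
    fun j => if j % 2 = 0 then w (j / 2) else w' (j / 2), fun a => ?_⟩
  simp only [Ev, ev_ren, Env.spec, ← h, ← h']
  have e1 : ∀ j, (if 2 * j % 2 = 0 then w (2 * j / 2) else w' (2 * j / 2)) = w j := fun j => by
    simp
  have e2 : ∀ j, (if (2 * j + 1) % 2 = 0 then w ((2 * j + 1) / 2) else w' ((2 * j + 1) / 2)) =
      w' j := fun j => by
    rw [if_neg (by omega), show (2 * j + 1) / 2 = j by omega]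
  simp only [e1, e2]

instance dfAll (p : α → M → Prop) [h : Df M fun z : α × M => p z.1 z.2] :
    Df M fun a => ∀ x, p a x := by
  obtain ⟨φ, w, h⟩ := h
  exact ⟨.all φ, w, fun a => forall_congr' fun x => h (a, x)⟩

instance dfNot (p : α → Prop) [Df M p] : Df M fun a => ¬ p a := dfImp p fun _ => False

instance dfAnd (p q : α → Prop) [Df M p] [Df M q] : Df M fun a => p a ∧ q a :=
  (inferInstance : Df M fun a => ¬ (p a → ¬ q a)).congr fun a => by tauto

instance dfOr (p q : α → Prop) [Df M p] [Df M q] : Df M fun a => p a ∨ q a :=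
  (inferInstance : Df M fun a => ¬ p a → q a).congr fun a => by tauto

instance dfIff (p q : α → Prop) [Df M p] [Df M q] : Df M fun a => p a ↔ q a :=
  (inferInstance : Df M fun a => (p a → q a) ∧ (q a → p a)).congr fun _ => iff_def.symm

instance dfEx (p : α → M → Prop) [Df M fun z : α × M => p z.1 z.2] :
    Df M fun a => ∃ x, p a x :=
  (inferInstance : Df M fun a => ¬ ∀ x, ¬ p a x).congr fun a => by simp

instance (priority := low) tmComp (s : α → M) (g : β → α) [h : Tm s] [Prj M g] :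
    Tm fun z => s (g z) :=
  ⟨@Df.comp M _ _ _ _ _ (fun z : α × M => z.2 = s z.1) _ h.df (Prj.up g)⟩

instance tmVar (g : β → α × M) [h : Prj M g] : Tm fun z => (g z).2 := by
  obtain ⟨f, hf⟩ := h
  exact ⟨.eq 0 (f 0 + 1), Mod.v0, fun z => by
    show z.2 = Env.c z.1 _ (f 0) ↔ _
    rw [← hf]; rfl⟩

instance tmConst (m : M) : Tm fun _ : α => m :=
  ⟨.eq 0 (Env.bs M α 0 + 1), fun _ => m, fun z => by
    show z.2 = Env.c z.1 _ _ ↔ _
    rw [Env.hbs]⟩

theorem dfRel (R : M → M → Prop) (φ : Fm) (hφ : ∀ x y w, Ev Mod.E φ (cons y (cons x w)) ↔ R x y)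
    (s t : α → M) [hs : Tm s] [ht : Tm t] : Df M fun a => R (s a) (t a) := by
  have h1 := hs.df
  have h2 : Df M fun z : (α × M) × M => z.2 = t z.1.1 := (tmComp t fun z : α × M => z.1).df
  have h3 : Df M fun z : (α × M) × M => R z.1.2 z.2 := ⟨φ, Mod.v0, fun z => hφ _ _ _⟩
  exact (inferInstance : Df M fun a => ∀ x, x = s a → ∀ y, y = t a → R x y).congr fun a => by simp

instance dfMem (s t : α → M) [Tm s] [Tm t] : Df M fun a => s a ∈ t a :=
  dfRel (· ∈ ·) (.mem 1 0) (fun _ _ _ => Iff.rfl) s t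

instance dfEq (s t : α → M) [Tm s] [Tm t] : Df M fun a => s a = t a :=
  dfRel (· = ·) (.eq 1 0) (fun _ _ _ => Iff.rfl) s t

instance dfSub (s t : α → M) [Tm s] [Tm t] : Df M fun a => s a ⊆ t a :=
  (inferInstance : Df M fun a => ∀ z ∈ s a, z ∈ t a)

theorem sep (a : M) (p : M → Prop) [h : Df M fun z : Unit × M => p z.2] :
    ∃ b : M, ∀ x, x ∈ b ↔ x ∈ a ∧ p x := by
  obtain ⟨φ, w, h⟩ := h
  have := Mod.ax _ (ZFC.sep φ) w
  simp only [ev_all, ev_ex, ev_iff, ev_and, ev_mem, at1, ev_ren] at this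
  obtain ⟨b, hb⟩ := this a
  refine ⟨b, fun x => (hb x).trans (and_congr Iff.rfl ?_)⟩
  rw [← h ((), x)]
  refine iff_of_eq (congrArg _ (funext fun i => ?_))
  cases i <;> rfl

theorem ext {a b : M} (h : a ⊆ b) (h' : b ⊆ a) : a = b := by
  have := Mod.ax _ ZFC.ext (Mod.v0 (M := M))
  simp only [sub, allIn, ev_all, ev_imp, ev_mem, ev_eq] at this
  exact this a b h h'

theorem ext' {a b : M} (h : ∀ z, z ∈ a ↔ z ∈ b) : a = b :=
  ext (fun z => (h z).1) fun z => (h z).2

theorem Tm.ofMem (t : α → M) (h : Df M fun z : α × M => z.2 ∈ t z.1) : Tm t := by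
  have h2 : Df M fun z : (α × M) × M => z.2 ∈ t z.1.1 :=
    @Df.comp M _ _ _ _ _ (fun z : α × M => z.2 ∈ t z.1) _ h (Prj.up fun z : α × M => z.1)
  exact ⟨(inferInstance : Df M fun z : α × M => ∀ u, u ∈ z.2 ↔ u ∈ t z.1).congr fun z =>
    ⟨ext', fun e u => by rw [e]⟩⟩

end Pool.Agent.Lib.MP_60e7f9_lc.Prov
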