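import Mathlib
import Pool.Agent.Lib.MP_60e7f9_lc.Prov.Df

/-!
Elementary set theory in an arbitrary model of ZFC.
-/

set_option autoImplicit false
set_option linter.unusedSectionVars false
set_option synthInstance.maxSize 100000

namespace Pool.Agent.Lib.MP_60e7f9_lc.Prov

open Pool.Agent.Lib.Common.Forcing

variable {M : Type} [Mod M] {α : Type} [Env M α]

theorem ex_emp : ∃ e : M, ∀ z, z ∉ e := by
  obtain ⟨b, hb⟩ := sep (Mod.v0 0 : M) fun _ => False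
  exact ⟨b, fun z h => ((hb z).1 h).2⟩

theorem ex_upair (a b : M) : ∃ c : M, ∀ z, z ∈ c ↔ z = a ∨ z = b := by
  have := Mod.ax _ ZFC.pair (Mod.v0 (M := M))
  simp only [ev_all, ev_ex, ev_and, ev_mem] at this
  obtain ⟨c, h1, h2⟩ := this a b
  obtain ⟨d, hd⟩ := sep c fun z => z = a ∨ z = b
  exact ⟨d, fun z => (hd z).trans ⟨fun h => h.2, fun h => ⟨by rcases h with rfl | rfl; exacts [h1, h2], h⟩⟩⟩

theorem ex_union (a b : M) : ∃ c : M, ∀ z, z ∈ c ↔ z ∈ a ∨ z ∈ b := by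
  have := Mod.ax _ ZFC.union (Mod.v0 (M := M))
  simp only [sub, allIn, ev_all, ev_ex, ev_imp, ev_mem] at this
  obtain ⟨p, hp⟩ := ex_upair a b
  obtain ⟨c, h⟩ := this p
  obtain ⟨d, hd⟩ := sep c fun z => z ∈ a ∨ z ∈ b
  exact ⟨d, fun z => (hd z).trans ⟨fun h => h.2, fun h' => ⟨h'.elim
    (h a ((hp a).2 (.inl rfl)) z) (h b ((hp b).2 (.inr rfl)) z), h'⟩⟩⟩

theorem ex_pow (a : M) : ∃ c : M, ∀ z, z ∈ c ↔ z ⊆ a := by
  have := Mod.ax _ ZFC.power (Mod.v0 (M := M))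
  simp only [sub, allIn, ev_all, ev_ex, ev_imp, ev_mem] at this
  obtain ⟨c, h⟩ := this a
  obtain ⟨d, hd⟩ := sep c fun z => z ⊆ a
  exact ⟨d, fun z => (hd z).trans ⟨fun h => h.2, fun h' => ⟨h z h', h'⟩⟩⟩

theorem not_mem_self (a : M) : a ∉ a := fun h => by
  have := Mod.ax _ ZFC.found (Mod.v0 (M := M))
  simp only [emp, allIn, exIn, ev_all, ev_ex, ev_imp, ev_neg, ev_and, ev_mem] at this
  obtain ⟨p, hp⟩ := ex_upair a a
  obtain ⟨x, h1, h2⟩ := this p fun h' => h' a ((hp a).2 (.inl rfl))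
  obtain rfl : x = a := ((hp x).1 h1).elim id id
  exact h2 x h h1

noncomputable instance : EmptyCollection M := ⟨ex_emp.choose⟩
noncomputable instance : Union M := ⟨fun a b => (ex_union a b).choose⟩
noncomputable instance : Inter M := ⟨fun a b => (sep a fun z => z ∈ b).choose⟩
noncomputable instance : SDiff M := ⟨fun a b => (sep a fun z => z ∉ b).choose⟩
/-- The unordered pair. -/
noncomputable def up (a b : M) : M := (ex_upair a b).choose
/-- The power set. -/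
noncomputable def pw (a : M) : M := (ex_pow a).choose
/-- The ordered pair. -/
noncomputable def op (a b : M) : M := up (up a a) (up a b)
/-- The successor. -/
noncomputable def sc (a : M) : M := a ∪ up a a

@[simp] theorem m_emp (z : M) : z ∉ (∅ : M) := ex_emp.choose_spec z
@[simp] theorem m_union {a b z : M} : z ∈ a ∪ b ↔ z ∈ a ∨ z ∈ b := (ex_union a b).choose_spec z
@[simp] theorem m_inter {a b z : M} : z ∈ a ∩ b ↔ z ∈ a ∧ z ∈ b :=
  (sep a fun z => z ∈ b).choose_spec z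
@[simp] theorem m_diff {a b z : M} : z ∈ a \ b ↔ z ∈ a ∧ z ∉ b :=
  (sep a fun z => z ∉ b).choose_spec z
@[simp] theorem m_up {a b z : M} : z ∈ up a b ↔ z = a ∨ z = b := (ex_upair a b).choose_spec z
@[simp] theorem m_pw {a z : M} : z ∈ pw a ↔ z ⊆ a := (ex_pow a).choose_spec z
@[simp] theorem m_sc {a z : M} : z ∈ sc a ↔ z ∈ a ∨ z = a := by simp [sc]

instance (s t : α → M) [Tm s] [Tm t] : Tm fun a => s a ∪ t a :=
  .ofMem _ (by simp only [m_union]; infer_instance)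
instance (s t : α → M) [Tm s] [Tm t] : Tm fun a => s a ∩ t a :=
  .ofMem _ (by simp only [m_inter]; infer_instance)
instance (s t : α → M) [Tm s] [Tm t] : Tm fun a => s a \ t a :=
  .ofMem _ (by simp only [m_diff]; infer_instance)
instance (s t : α → M) [Tm s] [Tm t] : Tm fun a => up (s a) (t a) :=
  .ofMem _ (by simp only [m_up]; infer_instance)
instance (s : α → M) [Tm s] : Tm fun a => pw (s a) :=
  .ofMem _ (by simp only [m_pw]; infer_instance)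
instance (s : α → M) [Tm s] : Tm fun a => sc (s a) :=
  .ofMem _ (by simp only [m_sc]; infer_instance)
instance (s t : α → M) [Tm s] [Tm t] : Tm fun a => op (s a) (t a) :=
  (inferInstance : Tm fun a => up (up (s a) (s a)) (up (s a) (t a)))

theorem up_inj {a b c : M} (h : up a b = up a c) : b = c := by
  have h1 : b ∈ up a c := h ▸ m_up.2 (.inr rfl)
  have h2 : c ∈ up a b := h ▸ m_up.2 (.inr rfl)
  rw [m_up] at h1 h2
  rcases h1 with rfl | h1
  · exact h2.elim Eq.symm Eq.symm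
  · exact h1

theorem op_inj {a b c d : M} (h : op a b = op c d) : a = c ∧ b = d := by
  have h1 : up a a ∈ op c d := h ▸ m_up.2 (.inl rfl)
  have h2 : a = c := by
    have : c ∈ up a a := by rcases m_up.1 h1 with e | e <;> rw [e] <;> simp
    exact ((m_up.1 this).elim id id).symm
  subst h2
  exact ⟨rfl, up_inj (up_inj h)⟩

theorem op_mem {a b A B : M} (ha : a ∈ A) (hb : b ∈ B) : op a b ∈ pw (pw (A ∪ B)) := by
  refine m_pw.2 fun z hz => m_pw.2 fun u hu => ?_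
  rcases m_up.1 hz with rfl | rfl <;> rcases m_up.1 hu with rfl | rfl <;> simp [ha, hb]

theorem s_emp {a : M} : (∀ z, z ∉ a) ↔ a = ∅ :=
  ⟨fun h => ext' fun z => by simp [h z], fun h => by simp [h]⟩

theorem s_suc {a b : M} : (∀ z, z ∈ b ↔ z ∈ a ∨ z = a) ↔ b = sc a :=
  ⟨fun h => ext' fun z => by simp [h z], fun h => by simp [h]⟩

theorem s_up {p a b : M} : (∀ z, z ∈ p ↔ z = a ∨ z = b) ↔ p = up a b :=
  ⟨fun h => ext' fun z => by simp [h z], fun h => by simp [h]⟩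

theorem s_res {s x n : M} : (∀ z, z ∈ s ↔ z ∈ x ∧ z ∈ n) ↔ s = x ∩ n :=
  ⟨fun h => ext' fun z => by simp [h z], fun h => by simp [h]⟩

theorem ex_om : ∃ o : M, ∀ n, n ∈ o ↔ ∀ w : M, ∅ ∈ w → (∀ a ∈ w, sc a ∈ w) → n ∈ w := by
  have := Mod.ax _ ZFC.inf (Mod.v0 (M := M))
  simp only [ind, emp, suc, allIn, exIn, ev_all, ev_ex, ev_imp, ev_neg, ev_and, ev_mem, ev_iff,
    ev_or, ev_eq, Nat.reduceAdd, Nat.reduceSub, cons_zero, cons_succ, E_def, s_emp, s_suc,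
    exists_eq_right] at this
  obtain ⟨w, h1, h2⟩ := this
  obtain ⟨d, hd⟩ := sep w fun n => ∀ w : M, (∅ : M) ∈ w → (∀ a ∈ w, sc a ∈ w) → n ∈ w
  exact ⟨d, fun z => (hd z).trans ⟨fun h => h.2, fun h' => ⟨h' w h1 h2, h'⟩⟩⟩

/-- The set of natural numbers of the model. -/
noncomputable def om (M : Type) [Mod M] : M := ex_om.choose

theorem m_om {n : M} : n ∈ om M ↔ ∀ w : M, ∅ ∈ w → (∀ a ∈ w, sc a ∈ w) → n ∈ w :=
  ex_om.choose_spec n

theorem emp_om : (∅ : M) ∈ om M := m_om.2 fun _ h _ => h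

theorem sc_om {n : M} (h : n ∈ om M) : sc n ∈ om M :=
  m_om.2 fun w h1 h2 => h2 _ (m_om.1 h w h1 h2)

theorem om_ind (p : M → Prop) [Df M fun z : Unit × M => p z.2] (h0 : p ∅)
    (h1 : ∀ n ∈ om M, p n → p (sc n)) : ∀ n ∈ om M, p n := fun n hn => by
  obtain ⟨b, hb⟩ := sep (om M) p
  exact ((hb n).1 (m_om.1 hn b ((hb _).2 ⟨emp_om, h0⟩) fun a ha =>
    (hb _).2 ⟨sc_om ((hb a).1 ha).1, h1 a ((hb a).1 ha).1 ((hb a).1 ha).2⟩)).2

theorem om_tr : ∀ n ∈ om M, ∀ k ∈ n, k ∈ om M ∧ k ⊆ n :=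
  om_ind _ (by simp) fun n hn ih k hk => by
    rcases m_sc.1 hk with h | rfl
    · exact ⟨(ih k h).1, fun z hz => m_sc.2 (.inl ((ih k h).2 z hz))⟩
    · exact ⟨hn, fun z hz => m_sc.2 (.inl hz)⟩

theorem om_sub : ∀ m ∈ om M, ∀ n ∈ om M, n ⊆ m → n = m ∨ n ∈ m :=
  om_ind _ (fun n _ h => .inl (s_emp.1 fun z hz => m_emp z (h z hz))) fun m _ ih n hn h => by
    by_cases hm : m ∈ n
    · exact .inl (ext h fun z hz => (m_sc.1 hz).elim ((om_tr n hn m hm).2 z) fun e => e ▸ hm)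
    · refine .inr (m_sc.2 (ih n hn fun z hz => (m_sc.1 (h z hz)).elim id fun e => ?_).symm)
      exact absurd (e ▸ hz) hm

theorem om_tri {m : M} (hm : m ∈ om M) : ∀ n ∈ om M, m ∈ n ∨ n ⊆ m :=
  om_ind _ (.inr fun z hz => absurd hz (m_emp z)) fun n hn ih => by
    rcases ih with h | h
    · exact .inl (m_sc.2 (.inl h))
    · rcases om_sub m hm n hn h with e | e
      · exact .inl (m_sc.2 (.inr e.symm))
      · exact .inr fun z hz => (m_sc.1 hz).elim (h z) fun e' => e' ▸ e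

theorem dfR2 (r : M → M → Prop) [hr : Df M fun z : (Unit × M) × M => r z.1.2 z.2]
    {β : Type} [Env M β] (s t : β → M) [hs : Tm s] [Tm t] : Df M fun a => r (s a) (t a) := by
  have h1 := hs.df
  have h2 : Df M fun z : (β × M) × M => z.2 = t z.1.1 := (tmComp t fun z : β × M => z.1).df
  have h3 : Df M fun z : (β × M) × M => r z.1.2 z.2 :=
    Df.comp (h := hr) (h' := Prj.up _ (h := Prj.up _ (h := prjUnit))) _ _
  exact (inferInstance : Df M fun a => ∀ x, x = s a → ∀ y, y = t a → r x y).congr fun a => by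
    simp

theorem dfR1 (r : M → Prop) [hr : Df M fun z : Unit × M => r z.2]
    {β : Type} [Env M β] (s : β → M) [hs : Tm s] : Df M fun a => r (s a) := by
  have h1 := hs.df
  have h3 : Df M fun z : β × M => r z.2 :=
    Df.comp (fun z : Unit × M => r z.2) _ (h := hr) (h' := Prj.up _ (h := prjUnit))
  exact (inferInstance : Df M fun a => ∀ x, x = s a → r x).congr fun a => by simp

/-- Choice for a definable relation. -/
theorem ac (A B : M) (r : M → M → Prop) [hr : Df M fun z : (Unit × M) × M => r z.1.2 z.2]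
    (h : ∀ a ∈ A, ∃ b ∈ B, r a b) : ∃ G : M, (∀ a ∈ A, ∃ b, op a b ∈ G) ∧
      (∀ a b, op a b ∈ G → a ∈ A ∧ b ∈ B ∧ r a b) ∧
      ∀ a b b', op a b ∈ G → op a b' ∈ G → b = b' := by
  have i1 := @dfR2 M _ r hr
  obtain ⟨S, hS⟩ := sep (pw (pw (pw (A ∪ B)))) fun x => ∃ a ∈ A,
    ∀ p, p ∈ x ↔ ∃ b ∈ B, p = op a b ∧ r a b
  have := Mod.ax _ ZFC.choice (Mod.v0 (M := M))
  simp only [emp, allIn, exIn, ev_all, ev_ex, ev_imp, ev_neg, ev_and, ev_mem, ev_eq,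
    Nat.reduceAdd, Nat.reduceSub, cons_zero, cons_succ, E_def] at this
  have hx : ∀ a ∈ A, ∃ x ∈ S, ∀ p, p ∈ x ↔ ∃ b ∈ B, p = op a b ∧ r a b := fun a ha => by
    obtain ⟨x, hx⟩ := sep (pw (pw (A ∪ B))) fun p => ∃ b ∈ B, p = op a b ∧ r a b
    have e : ∀ p, p ∈ x ↔ ∃ b ∈ B, p = op a b ∧ r a b := fun p =>
      (hx p).trans ⟨fun h => h.2, fun ⟨b, c, d, e⟩ => ⟨d ▸ op_mem ha c, b, c, d, e⟩⟩
    exact ⟨x, (hS x).2 ⟨m_pw.2 fun p hp => ((hx p).1 hp).1, a, ha, e⟩, e⟩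
  obtain ⟨c, hc⟩ := this S (fun x hx h' => by
    obtain ⟨-, a, ha, e⟩ := (hS x).1 hx
    obtain ⟨b, c, d⟩ := h a ha
    exact h' _ ((e _).2 ⟨b, c, rfl, d⟩)) (fun x hx x' hx' y hy hy' => by
    obtain ⟨-, a, -, e⟩ := (hS x).1 hx
    obtain ⟨-, a', -, e'⟩ := (hS x').1 hx'
    obtain ⟨b, -, c, -⟩ := (e y).1 hy
    obtain ⟨b', -, c', -⟩ := (e' y).1 hy'
    obtain rfl := (op_inj (c.symm.trans c')).1
    exact ext' fun p => (e p).trans (e' p).symm)
  obtain ⟨G, hG⟩ := sep c fun p => ∃ a ∈ A, ∃ b ∈ B, p = op a b ∧ r a b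
  have h2 : ∀ a b, op a b ∈ G → a ∈ A ∧ b ∈ B ∧ r a b := fun a b hp => by
    obtain ⟨-, a', c, b', d, e, f⟩ := (hG _).1 hp
    obtain ⟨rfl, rfl⟩ := op_inj e
    exact ⟨c, d, f⟩
  refine ⟨G, fun a ha => ?_, h2, fun a b b' h1 h1' => ?_⟩
  · obtain ⟨x, c1, e⟩ := hx a ha
    obtain ⟨y, d1, d2, -⟩ := hc x c1
    obtain ⟨b, f1, rfl, f2⟩ := (e y).1 d1
    exact ⟨b, (hG _).2 ⟨d2, a, ha, b, f1, rfl, f2⟩⟩
  · obtain ⟨x, c1, e⟩ := hx a (h2 _ _ h1).1
    obtain ⟨y, -, -, d⟩ := hc x c1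
    exact (op_inj ((d _ ((e _).2 ⟨b, (h2 _ _ h1).2.1, rfl, (h2 _ _ h1).2.2⟩) ((hG _).1 h1).1).trans
      (d _ ((e _).2 ⟨b', (h2 _ _ h1').2.1, rfl, (h2 _ _ h1').2.2⟩) ((hG _).1 h1').1).symm)).2

end Pool.Agent.Lib.MP_60e7f9_lc.Prov
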