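import Mathlib
import Pool.Agent.Lib.MP_60e7f9_lc.Prov.Sets

/-!
The combinatorial core in an arbitrary model of ZFC: a set in `E` is bounded for `R_2^eq`.
-/

set_option autoImplicit false
set_option linter.unusedSectionVars false
set_option synthInstance.maxSize 100000

namespace Pool.Agent.Lib.MP_60e7f9_lc.Prov

open Pool.Agent.Lib.Common.Forcing

variable {M : Type} [Mod M]

/-- Tarski finiteness. -/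
def TF (A : M) : Prop :=
  ∀ S : M, (∀ B ∈ S, B ⊆ A) → ∀ B0 ∈ S, ∃ B ∈ S, ∀ B' ∈ S, B' ⊆ B → B ⊆ B'

theorem tf_pw : ∀ n ∈ om M, TF (pw n) := by
  unfold TF
  refine om_ind _ (fun S hS B0 h0 => ?_) fun n _ ih S hS B0 h0 => ?_
  · by_cases h : ∅ ∈ S
    · exact ⟨∅, h, fun _ _ _ z hz => absurd hz (m_emp z)⟩
    · refine ⟨B0, h0, fun B hB _ z hz => ?_⟩
      have e : ∀ C ∈ S, ∀ u ∈ C, u = ∅ := fun C hC u hu =>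
        s_emp.1 fun k hk => m_emp k (m_pw.1 (hS C hC u hu) k hk)
      by_contra hc
      exact h (s_emp.1 (fun u hu => hc (by rwa [e B0 h0 z hz, ← e B hB u hu])) ▸ hB)
  · obtain ⟨S0, e0⟩ := sep (pw (pw n)) fun C => ∃ B ∈ S, C = B ∩ pw n
    have m0 : ∀ B ∈ S, B ∩ pw n ∈ S0 := fun B hB =>
      (e0 _).2 ⟨m_pw.2 fun z hz => (m_inter.1 hz).2, B, hB, rfl⟩
    obtain ⟨C0, c0, d0⟩ := ih S0 (fun B hB => m_pw.1 ((e0 B).1 hB).1) _ (m0 B0 h0)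
    obtain ⟨-, B1, b1, rfl⟩ := (e0 _).1 c0
    obtain ⟨S1, e1⟩ := sep (pw (pw n)) fun C => ∃ B ∈ S, B ∩ pw n ⊆ B1 ∩ pw n ∧
      ∀ z, z ∈ C ↔ z ⊆ n ∧ z ∪ up n n ∈ B
    have m1 : ∀ B ∈ S, B ∩ pw n ⊆ B1 ∩ pw n →
        ∃ C ∈ S1, ∀ z, z ∈ C ↔ z ⊆ n ∧ z ∪ up n n ∈ B := fun B hB h => by
      obtain ⟨C, hC⟩ := sep (pw n) fun z => z ∪ up n n ∈ B
      simp only [m_pw] at hC
      exact ⟨C, (e1 C).2 ⟨m_pw.2 fun z hz => m_pw.2 ((hC z).1 hz).1, B, hB, h, hC⟩, hC⟩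
    obtain ⟨C', c', -⟩ := m1 B1 b1 fun _ h => h
    obtain ⟨C1, c1, d1⟩ := ih S1 (fun B hB => m_pw.1 ((e1 B).1 hB).1) _ c'
    obtain ⟨-, B, b, f1, f2⟩ := (e1 _).1 c1
    refine ⟨B, b, fun B' b' h z hz => ?_⟩
    have g1 : B' ∩ pw n ⊆ B1 ∩ pw n := fun u hu =>
      f1 u (m_inter.2 ⟨h u (m_inter.1 hu).1, (m_inter.1 hu).2⟩)
    have hzn := m_pw.1 (hS B b z hz)
    by_cases hn : n ∈ z
    · obtain ⟨C, c, hC⟩ := m1 B' b' g1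
      have ez : (z ∩ n) ∪ up n n = z := ext' fun k => by
        have := hzn k
        simp only [m_union, m_inter, m_up, m_sc, or_self] at this ⊢
        exact ⟨fun h => h.elim (·.1) (· ▸ hn), fun h => (this h).imp (⟨h, ·⟩) id⟩
      have := d1 C c (fun u hu => (f2 u).2 ⟨((hC u).1 hu).1, h _ ((hC u).1 hu).2⟩) (z ∩ n)
        ((f2 _).2 ⟨fun k hk => (m_inter.1 hk).2, ez.symm ▸ hz⟩)
      exact ez ▸ ((hC _).1 this).2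
    · refine (m_inter.1 (d0 _ (m0 B' b') g1 z (f1 z (m_inter.2 ⟨hz, m_pw.2 fun k hk => ?_⟩)))).1
      exact (m_sc.1 (hzn k hk)).elim id fun e => absurd (e ▸ hk) hn

theorem TF.onto {A : M} (hA : TF A) (r : M → M → Prop)
    [hr : Df M fun z : (Unit × M) × M => r z.1.2 z.2] (tot : ∀ a ∈ A, ∃ b ∈ A, r a b)
    (inj : ∀ a ∈ A, ∀ a' ∈ A, ∀ b, r a b → r a' b → a = a') {c : M} (hc : c ∈ A) :
    ∃ a ∈ A, r a c := by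
  have i1 := @dfR2 M _ r hr
  by_contra h
  obtain ⟨S, e⟩ := sep (pw A) fun B => (∀ a ∈ B, ∀ b ∈ A, r a b → b ∈ B) ∧
    ∃ c ∈ B, ∀ a ∈ B, ¬ r a c
  obtain ⟨B, b, d⟩ := hA S (fun B hB => m_pw.1 ((e B).1 hB).1) A
    ((e A).2 ⟨m_pw.2 fun _ h => h, fun _ _ _ h _ => h, c, hc, fun a ha h' => h ⟨a, ha, h'⟩⟩)
  obtain ⟨b0, b1, x, b2, b3⟩ := (e B).1 b
  rw [m_pw] at b0
  obtain ⟨B', e'⟩ := sep B fun b => ∃ a ∈ B, r a b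
  have hx : x ∉ B' := fun h => by
    obtain ⟨-, a, ha, h'⟩ := (e' x).1 h
    exact b3 a ha h'
  obtain ⟨y, hy, hxy⟩ := tot x (b0 x b2)
  refine hx (d B' ((e B').2 ⟨m_pw.2 fun z hz => b0 z ((e' z).1 hz).1, fun a ha b hb h => ?_, y,
    (e' y).2 ⟨b1 x b2 y hy hxy, x, b2, hxy⟩, fun a ha h => hx ?_⟩) (fun z hz => ((e' z).1 hz).1)
    x b2)
  · exact (e' b).2 ⟨b1 a ((e' a).1 ha).1 b hb h, a, ((e' a).1 ha).1, h⟩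
  · exact inj a (b0 a ((e' a).1 ha).1) x (b0 x b2) y h hxy ▸ ha

/-- Meaning of `leq`. -/
def Leq (A B : M → Prop) : Prop := ∃ g : M, (∀ a, A a → ∃ b, B b ∧ op a b ∈ g) ∧
  ∀ a b a' b', op a b ∈ g → op a' b' ∈ g → (a = a' ↔ b = b')

/-- Meaning of `null`. -/
def Null (K : M) : Prop := ∀ m ∈ om M, ∃ N ∈ om M, m ⊆ N ∧
  Leq (fun p => ∃ x ∈ K, ∃ s u : M, s = x ∩ N ∧ u ⊆ m ∧ p = op s u) fun z => z ⊆ N

theorem Null.nd {K : M} (h : Null K) {n : M} (hn : n ∈ om M) (s : M) :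
    ∃ t ∈ om M, n ⊆ t ∧ ∃ y : M, (∀ k ∈ n, k ∈ y ↔ k ∈ s) ∧
      ∀ x ∈ K, ∃ k ∈ t, ¬ (k ∈ x ↔ k ∈ y) := by
  by_contra hc
  obtain ⟨N, hN, h1, g, g1, g2⟩ := h _ (sc_om hn)
  have h2 : n ⊆ N := fun k hk => h1 k (m_sc.2 (.inl hk))
  have key : ∀ z u : M, z ⊆ N → u ⊆ sc n →
      ∃ b ∈ pw N, op (op (z \ n ∪ s ∩ n) u) b ∈ g := fun z u hz hu => by
    have : ∃ x ∈ K, ∀ k ∈ N, k ∈ x ↔ k ∈ z \ n ∪ s ∩ n := by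
      by_contra h'
      refine hc ⟨N, hN, h2, z \ n ∪ s ∩ n, fun k hk => by simp [hk], fun x hx => ?_⟩
      by_contra h''
      exact h' ⟨x, hx, fun k hk => by_contra fun e => h'' ⟨k, hk, e⟩⟩
    obtain ⟨x, hx, e⟩ := this
    obtain ⟨b, b1, b2⟩ := g1 _ ⟨x, hx, z \ n ∪ s ∩ n, u, ext' fun k => ⟨fun hk => by
      have : k ∈ N := (m_union.1 hk).elim (fun h => hz k (m_diff.1 h).1)
        fun h => h2 k (m_inter.1 h).2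
      exact m_inter.2 ⟨(e k this).2 hk, this⟩,
      fun hk => (e k (m_inter.1 hk).2).1 (m_inter.1 hk).1⟩, hu, rfl⟩
    exact ⟨b, m_pw.2 b1, b2⟩
  obtain ⟨c, c1, c2⟩ := key ∅ (up n n) (fun k hk => absurd hk (m_emp k)) fun k hk => by
    simpa using .inr (by simpa using hk)
  obtain ⟨a, -, ha⟩ := (tf_pw N hN).onto (fun z b => op (op (z \ n ∪ s ∩ n) (z ∩ n)) b ∈ g)
    (fun z hz => key z _ (m_pw.1 hz) fun k hk => m_sc.2 (.inl (m_inter.1 hk).2))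
    (fun a _ a' _ b h h' => by
      obtain ⟨e1, e2⟩ := op_inj ((g2 _ _ _ _ h h').2 rfl)
      refine ext' fun k => ?_
      have f1 : k ∈ a \ n ∪ s ∩ n ↔ k ∈ a' \ n ∪ s ∩ n := by rw [e1]
      have f2 : k ∈ a ∩ n ↔ k ∈ a' ∩ n := by rw [e2]
      by_cases hk : k ∈ n
      · simpa [hk] using f2
      · simpa [hk] using f1) c1
  have : n ∈ a ∩ n := by rw [(op_inj ((g2 _ _ _ _ ha c2).2 rfl)).2]; simp
  exact not_mem_self n (m_inter.1 this).2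

theorem Null.kill {K : M} (h : Null K) : ∀ a ∈ om M, ∀ n ∈ om M, a ⊆ n → ∀ s : M,
    ∃ t ∈ om M, n ⊆ t ∧ ∃ y : M, (∀ k ∈ n, k ∈ y ↔ k ∈ s) ∧
      ∀ x ∈ K, ∃ k ∈ t, k ∉ a ∧ ¬ (k ∈ x ↔ k ∈ y) := by
  refine om_ind _ (fun n hn _ s => by simpa using h.nd hn s) fun a _ ih n hn han s => ?_
  have h1 : a ⊆ n := fun k hk => han k (m_sc.2 (.inl hk))
  have h2 : a ∈ n := han a (m_sc.2 (.inr rfl))
  have fl : ∀ y : M, ∃ y' : M, (a ∈ y' ↔ a ∉ y) ∧ ∀ k, k ≠ a → (k ∈ y' ↔ k ∈ y) := fun y =>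
    ⟨y \ up a a ∪ up a a \ y, by simp, fun k hk => by simp [hk]⟩
  obtain ⟨t1, a1, a2, y1, a3, a4⟩ := ih n hn h1 s
  obtain ⟨z1, b1, b2⟩ := fl y1
  obtain ⟨t2, c1, c2, z2, c3, c4⟩ := ih t1 a1 (fun k hk => a2 k (h1 k hk)) z1
  obtain ⟨y2, d1, d2⟩ := fl z2
  have e : ∀ k ∈ t1, k ∈ y2 ↔ k ∈ y1 := fun k hk => by
    by_cases hka : k = a
    · subst hka; rw [d1, c3 k hk, b1, not_not]
    · rw [d2 k hka, c3 k hk, b2 k hka]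
  refine ⟨t2, c1, fun k hk => c2 k (a2 k hk), y2, fun k hk => (e k (a2 k hk)).trans (a3 k hk),
    fun x hx => ?_⟩
  obtain ⟨k, k1, k2, k3⟩ := a4 x hx
  by_cases hka : k = a
  · subst hka
    obtain ⟨l, l1, l2, l3⟩ := c4 x hx
    have hl : l ≠ k := by
      rintro rfl
      rw [c3 l k1, b1] at l3
      tauto
    exact ⟨l, l1, by simp [l2, hl], by rwa [d2 l hl]⟩
  · exact ⟨k, c2 k k1, by simp [k2, hka], by rwa [e k k1]⟩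

theorem kill_all {R : M} (h1 : ∀ n K K', op n K ∈ R → op n K' ∈ R → K = K')
    (h2 : ∀ n K, op n K ∈ R → Null K) {a : M} (ha : a ∈ om M) : ∀ m ∈ om M,
    ∃ t ∈ om M, a ∈ t ∧ ∃ y : M, ∀ i ∈ m, ∀ K, op i K ∈ R →
      ∀ x ∈ K, ∃ k ∈ t, k ∉ a ∧ ¬ (k ∈ x ↔ k ∈ y) := by
  refine om_ind _ ⟨_, sc_om ha, by simp, ∅, by simp⟩ fun m _ ⟨t, t1, t2, y, t3⟩ => ?_
  by_cases hK : ∃ K, op m K ∈ R
  · obtain ⟨K, hK⟩ := hK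
    obtain ⟨t', a1, a2, y', a3, a4⟩ := (h2 m K hK).kill a ha t t1 (om_tr t t1 a t2).2 y
    refine ⟨t', a1, a2 a t2, y', fun i hi K' hK' x hx => ?_⟩
    rcases m_sc.1 hi with hi | rfl
    · obtain ⟨k, k1, k2, k3⟩ := t3 i hi K' hK' x hx
      exact ⟨k, a2 k k1, k2, by rwa [a3 k k1]⟩
    · exact a4 x (h1 _ _ _ hK' hK ▸ hx)
  · refine ⟨t, t1, t2, y, fun i hi K' hK' => ?_⟩
    rcases m_sc.1 hi with hi | rfl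
    · exact t3 i hi K' hK'
    · exact absurd ⟨K', hK'⟩ hK

/-- Meaning of `part`. -/
def Part (J : M) : Prop := J ⊆ om M ∧ ∅ ∈ J ∧ ∀ n ∈ om M, ∃ j ∈ J, n ∈ j

/-- Meaning of `rel`. -/
def Rel (f J h : M) : Prop := ∃ N ∈ om M, ∀ j ∈ J, ∀ j' ∈ J, N ⊆ j → j ∈ j' →
  (∀ z ∈ J, ¬ (j ∈ z ∧ z ∈ j')) → ∃ k ∈ j', k ∉ j ∧ (k ∈ f ↔ k ∈ h)

theorem tower {G : M} (g1 : ∀ a ∈ om M, ∃ t y, op a (op t y) ∈ G)
    (g2 : ∀ a t y, op a (op t y) ∈ G → t ∈ om M ∧ a ∈ t)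
    (g3 : ∀ a t y t' y', op a (op t y) ∈ G → op a (op t' y') ∈ G → t = t') :
    ∃ J : M, Part J ∧ ∀ j ∈ J, ∀ j' ∈ J, j ∈ j' → ∀ t y, op j (op t y) ∈ G → t ⊆ j' := by
  obtain ⟨J, hJ⟩ := sep (om M) fun j => ∀ w : M, (∅ : M) ∈ w →
    (∀ a ∈ w, ∀ t y, op a (op t y) ∈ G → t ∈ w) → j ∈ w
  have j0 : ∅ ∈ J := (hJ _).2 ⟨emp_om, fun _ h _ => h⟩
  have j1 : ∀ a ∈ J, ∀ t y, op a (op t y) ∈ G → t ∈ J := fun a ha t y h =>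
    (hJ _).2 ⟨(g2 _ _ _ h).1, fun w w0 w1 => w1 a (((hJ a).1 ha).2 w w0 w1) t y h⟩
  have jo : ∀ a ∈ J, a ∈ om M := fun a ha => ((hJ a).1 ha).1
  have ind : ∀ (p : M → Prop) [Df M fun z : Unit × M => p z.2], p ∅ →
      (∀ a ∈ J, p a → ∀ t y, op a (op t y) ∈ G → p t) → ∀ a ∈ J, p a := by
    intro p _ h0 h1 a ha
    obtain ⟨b, hb⟩ := sep J p
    exact ((hb a).1 (((hJ a).1 ha).2 b ((hb _).2 ⟨j0, h0⟩) fun a ha t y h =>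
      (hb _).2 ⟨j1 a ((hb a).1 ha).1 t y h, h1 a ((hb a).1 ha).1 ((hb a).1 ha).2 t y h⟩)).2
  have up' : ∀ a t y, op a (op t y) ∈ G → a ⊆ t := fun a t y h =>
    (om_tr t (g2 _ _ _ h).1 a (g2 _ _ _ h).2).2
  have l1 : ∀ a ∈ J, (∀ j ∈ J, j ∈ a → ∀ t y, op j (op t y) ∈ G → t ⊆ a) →
      ∀ t y, op a (op t y) ∈ G → ∀ j ∈ J, j ⊆ a ∨ t ⊆ j := fun a ha h t y ht =>
    ind (fun j => j ⊆ a ∨ t ⊆ j) (.inl fun z hz => absurd hz (m_emp z)) fun j hj ih t' y' h' => by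
      rcases ih with ih | ih
      · rcases om_sub a (jo a ha) j (jo j hj) ih with rfl | e
        · exact .inr (g3 _ _ _ _ _ ht h' ▸ fun _ h => h)
        · exact .inl (h j hj e t' y' h')
      · exact .inr fun z hz => up' _ _ _ h' z (ih z hz)
  have l2 : ∀ a ∈ J, ∀ j ∈ J, j ∈ a → ∀ t y, op j (op t y) ∈ G → t ⊆ a :=
    ind (fun a => ∀ j ∈ J, j ∈ a → ∀ t y, op j (op t y) ∈ G → t ⊆ a)
      (fun j _ h => absurd h (m_emp j)) fun a ha ih t y ht j hj hjt t' y' h' => by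
        rcases l1 a ha ih t y ht j hj with e | e
        · rcases om_sub a (jo a ha) j (jo j hj) e with rfl | e
          · exact g3 _ _ _ _ _ ht h' ▸ fun _ h => h
          · exact fun z hz => up' _ _ _ ht z (ih j hj e t' y' h' z hz)
        · exact absurd (e j hjt) (not_mem_self j)
  refine ⟨J, ⟨jo, j0, om_ind _ ?_ fun n hn ⟨j, hj, h⟩ => ?_⟩, fun j hj j' hj' => l2 j' hj' j hj⟩
  · obtain ⟨t, y, h⟩ := g1 _ emp_om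
    exact ⟨t, j1 _ j0 t y h, (g2 _ _ _ h).2⟩
  · obtain ⟨t, y, ht⟩ := g1 j (jo j hj)
    refine ⟨t, j1 j hj t y ht, ?_⟩
    rcases om_sub j (jo j hj) _ (sc_om hn) (fun z hz => (m_sc.1 hz).elim
      ((om_tr j (jo j hj) n h).2 z) (· ▸ h)) with e | e
    · exact e ▸ (g2 _ _ _ ht).2
    · exact up' _ _ _ ht _ e

/-- Meaning of `closed`. -/
def Closed (K : M) : Prop := (∀ x ∈ K, x ⊆ om M) ∧ ∀ x, x ⊆ om M →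
  (∀ n ∈ om M, ∃ y ∈ K, y ∩ n = x ∩ n) → x ∈ K

/-- Meaning of `inE`. -/
def InE (X : M) : Prop := ∃ R : M, (∀ n K K', op n K ∈ R → op n K' ∈ R → K = K') ∧
  (∀ n K, op n K ∈ R → Closed K ∧ Null K) ∧ ∀ x ∈ X, ∃ n K, n ∈ om M ∧ op n K ∈ R ∧ x ∈ K

theorem core {X : M} (h : InE X) : ∃ J h : M, Part J ∧ h ⊆ om M ∧ ∀ f ∈ X, Rel f J h := by
  obtain ⟨R, r1, r2, r3⟩ := h
  obtain ⟨G, g1, g2, g3⟩ := ac (om M) (pw (pw (om M ∪ pw (om M))))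
    (fun a p => ∃ t ∈ om M, ∃ y, p = op t y ∧ a ∈ t ∧ ∀ i ∈ a, ∀ K, op i K ∈ R →
      ∀ x ∈ K, ∃ k ∈ t, k ∉ a ∧ ¬ (k ∈ x ↔ k ∈ y)) fun a ha => by
    obtain ⟨t, t1, t2, y, t3⟩ := kill_all r1 (fun n K h => (r2 n K h).2) ha a ha
    refine ⟨_, op_mem t1 (m_pw.2 fun k hk => (om_tr t t1 k (m_inter.1 hk).2).1), t, t1, y ∩ t,
      rfl, t2, fun i hi K hK x hx => ?_⟩
    obtain ⟨k, k1, k2, k3⟩ := t3 i hi K hK x hx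
    exact ⟨k, k1, k2, by simpa [k1] using k3⟩
  have g4 : ∀ a t y, op a (op t y) ∈ G → t ∈ om M ∧ a ∈ t ∧ ∀ i ∈ a, ∀ K, op i K ∈ R →
      ∀ x ∈ K, ∃ k ∈ t, k ∉ a ∧ ¬ (k ∈ x ↔ k ∈ y) := fun a t y h => by
    obtain ⟨-, -, t', h1, y', e, h2⟩ := g2 _ _ h
    obtain ⟨rfl, rfl⟩ := op_inj e
    exact ⟨h1, h2⟩
  have g5 : ∀ a ∈ om M, ∃ t y, op a (op t y) ∈ G := fun a ha => by
    obtain ⟨p, hp⟩ := g1 a ha
    obtain ⟨-, -, t, -, y, rfl, -⟩ := g2 _ _ hp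
    exact ⟨t, y, hp⟩
  obtain ⟨J, hJ, j1⟩ := tower g5 (fun a t y h => ⟨(g4 a t y h).1, (g4 a t y h).2.1⟩)
    fun a t y t' y' h h' => (op_inj (g3 _ _ _ h h')).1
  obtain ⟨h, hh⟩ := sep (om M) fun k => ∃ j ∈ J, ∃ t y, op j (op t y) ∈ G ∧ k ∈ t ∧ k ∉ j ∧ k ∉ y
  refine ⟨J, h, hJ, fun k hk => ((hh k).1 hk).1, fun f hf => ?_⟩
  obtain ⟨m, K, m1, m2, m3⟩ := r3 f hf
  refine ⟨_, sc_om m1, fun j hj j' hj' a1 a2 _ => ?_⟩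
  obtain ⟨t, y, ht⟩ := g5 j (hJ.1 j hj)
  obtain ⟨k, k1, k2, k3⟩ := (g4 j t y ht).2.2 m (a1 m (m_sc.2 (.inr rfl))) K m2 f m3
  refine ⟨k, j1 j hj j' hj' a2 t y ht k k1, k2, (not_iff.1 fun e => k3 e.symm).symm.trans
    ⟨fun hk => (hh k).2 ⟨(om_tr t (g4 j t y ht).1 k k1).1, j, hj, t, y, ht, k1, k2, hk⟩,
      fun hk => ?_⟩⟩
  obtain ⟨-, i, hi, t', y', b1, b2, b3, b4⟩ := (hh k).1 hk
  rcases om_tri (hJ.1 i hi) j (hJ.1 j hj) with e | e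
  · exact absurd (j1 i hi j hj e t' y' b1 k b2) k2
  · rcases om_sub i (hJ.1 i hi) j (hJ.1 j hj) e with rfl | e
    · exact (op_inj (g3 _ _ _ ht b1)).2 ▸ b4
    · exact absurd (j1 j hj i hi e t y ht k k1) b3

theorem nonLeB_mod (Y : M) (h1 : ∀ x ∈ Y, x ⊆ om M)
    (h2 : ¬ ∃ J h : M, Part J ∧ h ⊆ om M ∧ ∀ f ∈ Y, Rel f J h) :
    ∃ X : M, (∀ x ∈ X, x ⊆ om M) ∧ ¬ InE X ∧ Leq (· ∈ X) (· ∈ Y) := by
  obtain ⟨G, g1, g2, -⟩ := ac Y Y (fun a b => a = b) fun a ha => ⟨a, ha, rfl⟩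
  refine ⟨Y, h1, fun h => h2 (core h), G, fun a ha => ?_, fun a b a' b' h h' => ?_⟩
  · obtain ⟨b, hb⟩ := g1 a ha
    exact ⟨b, (g2 _ _ hb).2.1, hb⟩
  · rw [(g2 _ _ h).2.2, (g2 _ _ h').2.2]

theorem dLeCov_mod (C : M) (h1 : ∀ X ∈ C, (∀ x ∈ X, x ⊆ om M) ∧ InE X)
    (h2 : ∀ x, x ⊆ om M → ∃ X ∈ C, x ∈ X) :
    ∃ D : M, (∀ p ∈ D, ∃ J h, p = op J h ∧ Part J ∧ h ⊆ om M) ∧
      (∀ f, f ⊆ om M → ∃ p ∈ D, ∃ J h, p = op J h ∧ Rel f J h) ∧ Leq (· ∈ D) (· ∈ C) := by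
  obtain ⟨G, g1, g2, g3⟩ := ac C (pw (pw (pw (om M) ∪ pw (om M))))
    (fun X p => ∃ J h, p = op J h ∧ Part J ∧ h ⊆ om M ∧ ∀ f ∈ X, Rel f J h)
    (hr := by unfold Part Rel; infer_instance) fun X hX => by
    obtain ⟨J, h, a1, a2, a3⟩ := core (h1 X hX).2
    exact ⟨_, op_mem (m_pw.2 a1.1) (m_pw.2 a2), J, h, rfl, a1, a2, a3⟩
  obtain ⟨D, hD⟩ := sep (pw (pw (pw (om M) ∪ pw (om M)))) fun p => ∃ X, op X p ∈ G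
  obtain ⟨G', f1, f2, f3⟩ := ac D C (fun p X => op X p ∈ G) fun p hp => by
    obtain ⟨-, X, hX⟩ := (hD p).1 hp
    exact ⟨X, (g2 _ _ hX).1, hX⟩
  refine ⟨D, fun p hp => ?_, fun f hf => ?_, G', fun a ha => ?_, fun a b a' b' h h' => ?_⟩
  · obtain ⟨-, X, hX⟩ := (hD p).1 hp
    obtain ⟨-, -, J, h, a1, a2, a3, -⟩ := g2 _ _ hX
    exact ⟨J, h, a1, a2, a3⟩
  · obtain ⟨X, hX, hfX⟩ := h2 f hf
    obtain ⟨p, hp⟩ := g1 X hX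
    obtain ⟨-, a0, J, h, a1, -, -, a4⟩ := g2 _ _ hp
    exact ⟨p, (hD p).2 ⟨a0, X, hp⟩, J, h, a1, a4 f hfX⟩
  · obtain ⟨b, hb⟩ := f1 a ha
    exact ⟨b, (f2 _ _ hb).2.1, hb⟩
  · refine ⟨fun e => f3 a _ _ h (e ▸ h'), fun e => g3 b _ _ (f2 _ _ h).2.2 (e ▸ (f2 _ _ h').2.2)⟩

end Pool.Agent.Lib.MP_60e7f9_lc.Prov
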