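import Mathlib
import Pool.Agent.Lib.MP_60e7f9_lc.Prov.Core

/-!
The two sentences hold in every model of ZFC, hence they are provable from ZFC.
-/

set_option autoImplicit false
set_option linter.unusedSimpArgs false

namespace Pool.Agent.Lib.MP_60e7f9_lc.Prov

open Pool.Agent.Lib.Common.Forcing

section
variable {M : Type} [Mod M]

theorem s_op {p a b : M} : (∀ z, z ∈ p ↔ z = up a a ∨ z = up a b) ↔ p = op a b := s_up

theorem s_om {n : M} : (∀ w : M, (∅ ∈ w ∧ ∀ a ∈ w, sc a ∈ w) → n ∈ w) ↔ n ∈ om M := by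
  rw [m_om]; simp only [and_imp]

theorem s_sub {a b : M} : (∀ z, z ∈ a → z ∈ b) ↔ a ⊆ b := Iff.rfl

theorem ev_nonLeB (v : ℕ → M) : Ev Mod.E (nonLeB 0) v := by
  simp only [nonLeB, real, nat, ind, emp, suc, part, rel, inE, closed, null, leq, app, opr, upr,
    res, sub, allIn, exIn, ev_all, ev_ex, ev_imp, ev_neg, ev_and, ev_mem, ev_iff, ev_or, ev_eq,
    Nat.reduceAdd, Nat.reduceSub, cons_zero, cons_succ, E_def, s_emp, s_suc, s_op, s_up, s_res,
    exists_eq_right, s_om, s_sub]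
  exact nonLeB_mod (M := M)

theorem ev_dLeCov (v : ℕ → M) : Ev Mod.E (dLeCov 0) v := by
  simp only [dLeCov, real, nat, ind, emp, suc, part, rel, inE, closed, null, leq, app, opr, upr,
    res, sub, allIn, exIn, ev_all, ev_ex, ev_imp, ev_neg, ev_and, ev_mem, ev_iff, ev_or, ev_eq,
    Nat.reduceAdd, Nat.reduceSub, cons_zero, cons_succ, E_def, s_emp, s_suc, s_op, s_up, s_res,
    exists_eq_right, s_om, s_sub]
  exact dLeCov_mod (M := M)

end

theorem prf_nonLeB : Prf [] (nonLeB 0) :=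
  complete fun M E h v => @ev_nonLeB M ⟨E, v, h⟩ v

theorem prf_dLeCov : Prf [] (dLeCov 0) :=
  complete fun M E h v => @ev_dLeCov M ⟨E, v, h⟩ v

end Pool.Agent.Lib.MP_60e7f9_lc.Prov
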