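import Mathlib
import Pool.Agent.Lib.MP_60e7f9_lc.Prov.Df

/-!
Sanity check: the axioms hold in the universe of sets, so the proof system is consistent.
-/

set_option autoImplicit false
set_option linter.unusedSimpArgs false

namespace Pool.Agent.Lib.MP_60e7f9_lc.Prov

open Pool.Agent.Lib.Common.Forcing

theorem zfset_model (φ : Fm) (h : ZFC φ) (v : ℕ → ZFSet.{0}) : Ev (· ∈ ·) φ v := by
  have e1 : ∀ (a b x : ZFSet.{0}), (fun i => cons x (cons b (cons a v)) (cons 0 (· + 3) i)) =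
      cons x v := fun a b x => funext fun i => by cases i <;> rfl
  have e2 : ∀ (a x y : ZFSet.{0}),
      (fun i => cons y (cons x (cons a v)) (cons 0 (cons 1 (· + 3)) i)) = cons y (cons x v) :=
    fun a x y => funext fun i => by rcases i with _ | _ | i <;> rfl
  have e3 : ∀ (a b x y : ZFSet.{0}),
      (fun i => cons y (cons x (cons b (cons a v))) (cons 0 (cons 1 (· + 4)) i)) =
        cons y (cons x v) :=
    fun a b x y => funext fun i => by rcases i with _ | _ | i <;> rfl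
  cases h <;> simp only [ind, emp, suc, sub, allIn, exIn, at1, at2, ev_all, ev_ex, ev_imp, ev_neg,
    ev_and, ev_mem, ev_iff, ev_or, ev_eq, ev_ren, Nat.reduceAdd, Nat.reduceSub, cons_zero,
    cons_succ, e1, e2, e3]
  · exact fun a b h h' => ZFSet.ext fun z => ⟨h z, h' z⟩
  · intro a h
    obtain ⟨y, h1, h2⟩ := ZFSet.regularity a fun e => h fun z => by simp [e]
    exact ⟨y, h1, fun z hz hz' => by
      have : z ∈ a ∩ y := ZFSet.mem_inter.2 ⟨hz', hz⟩
      simp [h2] at this⟩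
  · exact fun a b => ⟨{a, b}, by simp⟩
  · exact fun a => ⟨ZFSet.sUnion a, fun x hx z hz => ZFSet.mem_sUnion.2 ⟨x, hx, hz⟩⟩
  · exact fun a => ⟨ZFSet.powerset a, fun x hx => ZFSet.mem_powerset.2 hx⟩
  · exact ⟨ZFSet.omega, ⟨∅, ZFSet.omega_zero, by simp⟩, fun a ha =>
      ⟨insert a a, ZFSet.omega_succ ha, by simp [or_comm]⟩⟩
  · exact fun a => ⟨ZFSet.sep _ a, fun x => ZFSet.mem_sep⟩
  · intro a h
    choose f hf using h
    exact ⟨ZFSet.range fun x : a => f x.1 x.2, fun x hx =>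
      ⟨f x hx, ZFSet.mem_range.2 ⟨⟨x, hx⟩, rfl⟩, hf x hx⟩⟩
  · intro a h h'
    simp only [not_forall, not_not] at h
    choose f hf using h
    refine ⟨ZFSet.range fun x : a => f x.1 x.2, fun x hx =>
      ⟨f x hx, hf x hx, ZFSet.mem_range.2 ⟨⟨x, hx⟩, rfl⟩, fun y hy hy' => ?_⟩⟩
    obtain ⟨⟨x', hx'⟩, rfl⟩ := ZFSet.mem_range.1 hy'
    obtain rfl := h' x hx x' hx' _ hy (hf x' hx')
    rfl

theorem not_prf_bot : ¬ Prf [] .bot := fun h =>
  h.sound zfset_model (fun _ => ∅) (by simp)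

end Pool.Agent.Lib.MP_60e7f9_lc.Prov
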